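import Pool.Agent.Q229.GS.E
import Pool.Agent.Q229.GS.F
import Pool.Agent.Q229.GS.Gen

/-!
# Free pro-`p` subgroups of pro-`p` groups with `r(G) = d(G)² / 4`

`H1 p G` is the space of continuous homomorphisms from `G` to `ZMod p`, and `H2 p G` is the second
continuous cohomology group of `G` with trivial coefficients `ZMod p` (continuous 2-cocycles modulo
coboundaries of continuous functions), both defined in `Pool/Agent/Q229/GS/B.lean`.
-/

set_option autoImplicit false

namespace Pool.Agent.Results.MP_debe6c_al.CriticalCase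

open Pool.Agent.Q229.GS

/-- `G` is a finitely generated pro-`p` group: a compact Hausdorff totally disconnected topological group
in which every open normal subgroup has index a power of `p`, topologically generated by a finite set. -/
def IsFGProP (p : ℕ) (G : Type) [Group G] [TopologicalSpace G] : Prop :=
  IsTopologicalGroup G ∧ CompactSpace G ∧ T2Space G ∧ TotallyDisconnectedSpace G ∧
  (∀ N : Subgroup G, N.Normal → IsOpen (N : Set G) → ∃ k : ℕ, N.index = p ^ k) ∧
  ∃ s : Finset G, Dense ((Subgroup.closure (s : Set G) : Subgroup G) : Set G)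

/-- the closed subgroup `H` of `G` generated by `x` and `y` is a free pro-`p` group on `x, y`: for all
elements `a, b` of a finite `p`-group `Q` there is a continuous homomorphism `f : H → Q` with
`f x = a` and `f y = b` -/
def FreeOn (p : ℕ) (G : Type) [Group G] [TopologicalSpace G] [IsTopologicalGroup G] (x y : G) : Prop :=
  ∀ (Q : Type) [Group Q] [Finite Q], IsPGroup p Q → ∀ a b : Q,
    ∃ f : ↥((Subgroup.closure ({x, y} : Set G)).topologicalClosure) →* Q,
      IsOpen ((f.ker : Set ↥((Subgroup.closure ({x, y} : Set G)).topologicalClosure))) ∧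
      (∀ h : ↥((Subgroup.closure ({x, y} : Set G)).topologicalClosure), (h : G) = x → f h = a) ∧
      (∀ h : ↥((Subgroup.closure ({x, y} : Set G)).topologicalClosure), (h : G) = y → f h = b)

/-- A finitely generated pro-`p` group `G` with `d = dim H¹(G, F_p) > 2` and
`dim H²(G, F_p) = r ≤ d² / 4` contains a closed subgroup which is a free pro-`p` group of rank two. -/
theorem result (p : ℕ) (hp : p.Prime) (G : Type) [Group G] [TopologicalSpace G]
    [IsTopologicalGroup G] (hG : IsFGProP p G) (d r : ℕ)
    (hd : Module.rank (ZMod p) (H1 p G) = d) (hr : Module.rank (ZMod p) (H2 p G) = r)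
    (h2 : 2 < d) (h4 : 4 * r ≤ d ^ 2) :
    ∃ x y : G, FreeOn p G x y := by
  have : Fact p.Prime := ⟨hp⟩
  obtain ⟨-, hc, -, ht, hN, s, hs⟩ := hG
  have := hc
  have := ht
  have hN' : ∀ N : Subgroup G, IsOpen (N : Set G) → N.Normal → ∃ k : ℕ, N.index = p ^ k :=
    fun N h1 h2 => hN N h2 h1
  obtain ⟨g, χ, hg, hχ1, hχ2⟩ := exists_gen p G hN' s hs d hd
  have hfin := fun k => P_finite p G g hg k
  have hgrow := rec_growth (fun k => Module.finrank (ZMod p) (P p G k)) d r h2 h4 (by
    show Module.finrank (ZMod p) (⊥ : Submodule (ZMod p) (G → ZMod p)) = 0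
    exact finrank_bot _ _) (by
    rw [Nat.one_le_iff_ne_zero]
    intro h0
    rw [Submodule.finrank_eq_zero] at h0
    have h1 : (fun _ : G => (1 : ZMod p)) ∈ P p G 1 := (P_one_iff p G).2 ⟨1, rfl⟩
    rw [h0, Submodule.mem_bot] at h1
    exact one_ne_zero (congrFun h1 1)) (fun m => recursion p G g hg χ hχ1 hχ2 m r hr)
  have hd1 : (1 : ℝ) < (d : ℝ) / 2 := by
    have : (2 : ℝ) < d := by exact_mod_cast h2
    linarith
  have hmain := growth (fun k => FPG.an' (FPG.Ng p G g) k)
    (fun m n => Pool.Agent.H127R3.FPfinal.an_submul _ (FPG.lang_factor p G g) m n) _ hd1 (by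
      intro n
      refine (hgrow n).trans ?_
      exact_mod_cast finrank_P_le_sum p G g hg (n + 1))
  obtain ⟨x, y, hxy⟩ := Pool.Agent.H127R3.FPfinal.main p G hN' g hg _ hd1 hmain
  refine ⟨x, y, ?_⟩
  intro Q _ _ hQ a b
  have : Fintype Q := Fintype.ofFinite Q
  obtain ⟨k, hk⟩ := IsPGroup.iff_card.1 hQ
  exact FPG.final p G x y hxy Q ⟨k, by rw [← Nat.card_eq_fintype_card, hk]⟩ a b

end Pool.Agent.Results.MP_debe6c_al.CriticalCase
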